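import Mathlib

/-! MP_4dac8d_al, campaign AND: definitions.
`ball S n`: ball of radius `n` of the word metric of `S`; `FinAN B`: finite Assouad–Nagata dimension
for the ball family `B` (in the form of the frozen statement S01407). -/

set_option autoImplicit false
open Classical
open scoped Pointwise

namespace Pool.MP4dac8d

/-- Ball of radius `n` about `1` in the word metric of `S`. -/
def ball {G : Type*} [Group G] (S : Set G) (n : ℕ) : Set G :=
  {g | ∃ l : List G, l.length ≤ n ∧ (∀ x ∈ l, x ∈ S ∨ x⁻¹ ∈ S) ∧ l.prod = g}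

/-- The axioms of a length function, in terms of its balls. -/
structure BallFam {G : Type*} [Group G] (B : ℕ → Set G) : Prop where
  one_mem : ∀ n : ℕ, (1 : G) ∈ B n
  mono : ∀ {m n : ℕ}, m ≤ n → B m ⊆ B n
  inv : ∀ {n : ℕ} {g : G}, g ∈ B n → g⁻¹ ∈ B n
  mul : ∀ {m n : ℕ} {g h : G}, g ∈ B m → h ∈ B n → g * h ∈ B (m + n)

/-- Finite Assouad–Nagata dimension for the ball family `B` (the form used in the frozen statement). -/
def FinAN {G : Type*} [Group G] (B : ℕ → Set G) : Prop :=
  ∃ m c : ℕ, ∀ r : ℕ, 0 < r → ∃ (col : G → Fin (m + 1)) (p : G → G),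
    (∀ g h : G, col g = col h → g⁻¹ * h ∈ B r → p g = p h) ∧
    (∀ g h : G, p g = p h → g⁻¹ * h ∈ B (c * r))

/-- The same for an additive abelian group. -/
def FinANadd {M : Type*} [AddCommGroup M] (B : ℕ → Set M) : Prop :=
  ∃ m c : ℕ, ∀ r : ℕ, 0 < r → ∃ (col : M → Fin (m + 1)) (p : M → M),
    (∀ a b : M, col a = col b → b - a ∈ B r → p a = p b) ∧
    (∀ a b : M, p a = p b → b - a ∈ B (c * r))

/-- The Følner function of `(G, S)` is at most exponential. -/
def FolExp {G : Type*} [Group G] (S : Finset G) : Prop :=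
  ∃ C : ℕ, 0 < C ∧ ∀ n : ℕ, ∃ F : Finset G, F.Nonempty ∧
    n * ((F * (S ∪ S⁻¹)) \ F).card ≤ F.card ∧ F.card ≤ C ^ (n + 1)

/-- `G` is an extension of `ℤ^d` by the abelian group `M` (written additively, embedded by `i`);
`g • m` is conjugation.  `x k` are lifts of the basis vectors. -/
structure Ext (G M : Type*) [Group G] [AddCommGroup M] [DistribMulAction G M] (d : ℕ) where
  i : M → G
  i_add : ∀ a b : M, i (a + b) = i a * i b
  i_inj : Function.Injective i
  conj : ∀ (g : G) (m : M), g * i m * g⁻¹ = i (g • m)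
  π : G →* Multiplicative (Fin d → ℤ)
  x : Fin d → G
  π_x : ∀ k : Fin d, π (x k) = Multiplicative.ofAdd (Pi.single k 1)
  ker : ∀ g : G, π g = 1 ↔ ∃ m : M, i m = g

/-- The window of size `n` around `0` in the direction `t`: the subgroup `∑_{|k| ≤ n} t^k • A`. -/
def Win {G M : Type*} [Group G] [AddCommGroup M] [DistribMulAction G M] (t : G)
    (A : AddSubgroup M) (n : ℕ) : AddSubgroup M :=
  AddSubgroup.closure {x : M | ∃ k : ℤ, |k| ≤ (n : ℤ) ∧ ∃ a ∈ A, x = t ^ k • a}

/-- Vectors of `V` which are cheap at scale `n`: `φ m + ∑_{j<n} ρ(g_j) u_j` for a path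
`g_0 = 1, g_1, …, g_n = i m` in the Cayley graph and vectors `u_j` of norm at most `1`. -/
def Cheap {G M V : Type*} [Group G] [AddCommGroup M] [NormedAddCommGroup V] [NormedSpace ℝ V]
    (S : Set G) (i : M → G) (φ : M →+ V) (ρ : G →* (V →ₗ[ℝ] V)) (n : ℕ) : Set V :=
  {v | ∃ (g : ℕ → G) (u : ℕ → V) (m : M), g 0 = 1 ∧ (∀ j < n, (g j)⁻¹ * g (j + 1) ∈ ball S 1) ∧
    (∀ j, ‖u j‖ ≤ 1) ∧ g n = i m ∧ v = φ m + ∑ j ∈ Finset.range n, ρ (g j) (u j)}

/-- `N` is the subgroup generated by the `U`-orbits of finitely many elements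
(finite generation as a module over the group ring). -/
def FGov {Λ M : Type*} [Monoid Λ] [AddCommGroup M] (U : Λ →* Module.End ℤ M)
    (N : AddSubgroup M) : Prop :=
  ∃ F : Finset M, AddSubgroup.closure {x : M | ∃ q : Λ, ∃ m ∈ F, x = U q m} = N

/-- The elements killed by `p`. -/
def tor (M : Type*) [AddCommGroup M] (p : ℕ) : AddSubgroup M where
  carrier := {a : M | p • a = 0}
  zero_mem' := by simp
  add_mem' := by
    intro a b ha hb
    simp only [Set.mem_setOf_eq] at *
    rw [smul_add, ha, hb, add_zero]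
  neg_mem' := by
    intro a ha
    simp only [Set.mem_setOf_eq] at *
    rw [smul_neg, ha, neg_zero]

/-- The restriction of an action of `ℤ^d` to the cyclic group generated by `t`. -/
noncomputable def lineAct {M : Type*} [AddCommGroup M] {d : ℕ}
    (U : Multiplicative (Fin d → ℤ) →* Module.End ℤ M) (t : Fin d → ℤ) :
    Multiplicative ℤ →* Module.End ℤ M :=
  U.comp (zpowersHom (Multiplicative (Fin d → ℤ)) (Multiplicative.ofAdd t))

end Pool.MP4dac8d
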