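import Pool.Agent.Lib.MP_4dac8d_al.Mg.G006

/-! AND task Z2: the main theorem. -/

set_option autoImplicit false
open Classical
open scoped Pointwise

namespace Pool.MP4dac8d

universe u

/-- MAIN THEOREM, exponential Følner function.
Proof.  `exists_ext` gives `G₁, M, D, U`.  `h1`: for `q` take `g : G₁` with `D.π g = q`
(`Ext.exists_section`); `no_free_line` for `G, S`, `i = fun m => (D.i m : G)`, `g`, `T = U q`.  `h2` similarly
from `no_free_plane`.  `Ext.finAN_virtual` gives `H ≤ G₁` and `T`.  `G₁` is finitely generated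
(finite index): choose a finite generating set `T₁`; apply `finAN_of_finiteIndex` to `H ≤ G₁` and then to
`G₁ ≤ G`. -/
theorem finAN_of_folExp {G : Type u} [Group G] (S : Finset G)
    (hS : Subgroup.closure (S : Set G) = ⊤) (hfol : FolExp S) (H : Subgroup G)
    (hH : H.index ≠ 0) (hmet : ∀ a ∈ ⁅H, H⁆, ∀ b ∈ ⁅H, H⁆, a * b = b * a) :
    FinAN (ball (S : Set G)) := by
  obtain ⟨d, G₁, M, hM, hA, D, U, hidx, hUD, hfg⟩ := exists_ext S hS H hH hmet
  obtain ⟨σ, -, hσ, -, -⟩ := D.exists_section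
  have hsurj : ∀ q : Multiplicative (Fin d → ℤ), ∃ g : G₁, D.π g = q := fun q =>
    ⟨σ (Multiplicative.toAdd q), by rw [hσ]; exact ofAdd_toAdd q⟩
  have hadd : ∀ a b : M, ((D.i (a + b) : G₁) : G) = (D.i a : G) * (D.i b : G) := by
    intro a b
    rw [D.i_add, Subgroup.coe_mul]
  have hinj : Function.Injective (fun m : M => ((D.i m : G₁) : G)) := fun a b hab =>
    D.i_inj (Subtype.ext hab)
  have hconj : ∀ (g : G₁) (m : M), (g : G) * (D.i m : G) * (g : G)⁻¹ = (D.i (U (D.π g) m) : G) := by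
    intro g m
    rw [hUD, ← D.conj g m]
    simp only [Subgroup.coe_mul, Subgroup.coe_inv]
  have h1 : ∀ q, ∀ a : M, ∃ f : Polynomial ℤ, f ≠ 0 ∧ Polynomial.aeval (U q) f a = 0 := by
    intro q a
    obtain ⟨g, rfl⟩ := hsurj q
    exact no_free_line S hS hfol (fun m : M => ((D.i m : G₁) : G)) hadd hinj (g : G) (U (D.π g))
      (hconj g) a
  have h2 : ∀ p : ℕ, p.Prime → ∀ a : M, p • a = 0 → ∀ q₁ q₂ : Multiplicative (Fin d → ℤ),
      ∃ (n : ℕ) (c : Fin n → Fin n → ℤ), (∃ j k, ¬ (p : ℤ) ∣ c j k) ∧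
        ∑ j, ∑ k, c j k • (U q₁ ^ (j : ℕ) * U q₂ ^ (k : ℕ)) a = 0 := by
    intro p hp a ha q₁ q₂
    obtain ⟨g₁, rfl⟩ := hsurj q₁
    obtain ⟨g₂, rfl⟩ := hsurj q₂
    exact no_free_plane S hS hfol (fun m : M => ((D.i m : G₁) : G)) hadd hinj (g₁ : G) (g₂ : G)
      (U (D.π g₁)) (U (D.π g₂)) (hconj g₁) (hconj g₂) p hp a ha
  obtain ⟨K, T, hK, hT, hfin⟩ := Ext.finAN_virtual D U hUD hfg h1 h2
  have hG : Group.FG G := ⟨⟨S, hS⟩⟩
  have : G₁.FiniteIndex := ⟨hidx⟩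
  have hG₁ : Group.FG G₁ := inferInstance
  obtain ⟨T₁, hT₁⟩ := hG₁.1
  exact finAN_of_finiteIndex S hS G₁ hidx T₁ hT₁ (finAN_of_finiteIndex T₁ hT₁ K hK T hT hfin)

end Pool.MP4dac8d
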